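import Pool.Agent.Helper16.SD.GoalsD
import Pool.Agent.Helper31.TH.Loc

/-!
# Project SD (MP_fc6b1e_nt): Z_NEAR
-/

set_option autoImplicit false

namespace Pool.Agent.Helper66.SD.Z_NEAR

open NumberField Module Pool.Agent.Helper51.SigLeo

variable {p : ℕ} [hp : Fact p.Prime]

/-- Powers of the elements of absolute value `1` of a local field are close to `1`. -/
theorem sphere_pow (𝓕 : IntermediateField ℚ_[p] ℂ_[p]) [FiniteDimensional ℚ_[p] 𝓕] :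
    ∃ m : ℕ, 0 < m ∧ ∀ u : ℂ_[p], u ∈ 𝓕 → ‖u‖ = 1 → ‖u ^ m - 1‖ ≤ (1 / p : ℝ) ^ 2 := by
  classical
  have hp0 : (0 : ℝ) < p := by exact_mod_cast hp.out.pos
  have hproper : ProperSpace 𝓕 := FiniteDimensional.proper ℚ_[p] 𝓕
  have hc : IsCompact (Metric.closedBall (0 : 𝓕) 1) := isCompact_closedBall 0 1
  have hε : (0 : ℝ) < (1 / p : ℝ) ^ 2 / 2 := by positivity
  obtain ⟨t, -, htf, ht⟩ := hc.finite_cover_balls hε
  set N := htf.toFinset.card with hN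
  refine ⟨N.factorial, N.factorial_pos, ?_⟩
  intro u hu hu1
  set v : 𝓕 := ⟨u, hu⟩ with hv
  have hv1 : ‖v‖ = 1 := hu1
  have hmem : ∀ n : ℕ, ∃ c ∈ htf.toFinset, v ^ n ∈ Metric.ball c ((1 / p : ℝ) ^ 2 / 2) := by
    intro n
    have h1 : v ^ n ∈ Metric.closedBall (0 : 𝓕) 1 := by
      rw [mem_closedBall_zero_iff, norm_pow, hv1, one_pow]
    have h2 := ht h1
    rw [Set.mem_iUnion₂] at h2
    obtain ⟨c, hc, h3⟩ := h2
    exact ⟨c, htf.mem_toFinset.2 hc, h3⟩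
  choose c hct hcb using hmem
  obtain ⟨i, hi, j, hj, hij, hcij⟩ := Finset.exists_ne_map_eq_of_card_lt_of_maps_to
    (s := Finset.range (N + 1)) (t := htf.toFinset) (f := c)
    (by rw [Finset.card_range]; omega) (fun n _ => hct n)
  have key : ∀ a b : ℕ, a < b → b ≤ N → c a = c b → ‖u ^ N.factorial - 1‖ ≤ (1 / p : ℝ) ^ 2 := by
    intro a b hab hb hcab
    have h1 : dist (v ^ a) (v ^ b) < (1 / p : ℝ) ^ 2 := by
      have h2 := hcb a
      have h3 := hcb b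
      rw [← hcab] at h3
      rw [Metric.mem_ball] at h2 h3
      have h4 := dist_triangle_right (v ^ a) (v ^ b) (c a)
      linarith
    have h5 : ‖u ^ a - u ^ b‖ < (1 / p : ℝ) ^ 2 := by
      rw [dist_eq_norm] at h1
      exact h1
    obtain ⟨d, hd⟩ := Nat.exists_eq_add_of_lt hab
    have h6 : ‖u ^ (d + 1) - 1‖ ≤ (1 / p : ℝ) ^ 2 := by
      have h7 : u ^ a - u ^ b = - (u ^ a * (u ^ (d + 1) - 1)) := by
        rw [hd, add_assoc, pow_add]
        ring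
      rw [h7, norm_neg, norm_mul, norm_pow, hu1, one_pow, one_mul] at h5
      exact h5.le
    obtain ⟨q, hq⟩ : d + 1 ∣ N.factorial := Nat.dvd_factorial (Nat.succ_pos d) (by omega)
    rw [hq, pow_mul]
    set w := u ^ (d + 1) with hw
    have hw1 : ‖w‖ = 1 := by rw [hw, norm_pow, hu1, one_pow]
    have h8 : w ^ q - 1 = (w - 1) * ∑ i ∈ Finset.range q, w ^ i := by
      rw [mul_comm, geom_sum_mul]
    rw [h8, norm_mul]
    have h9 : ‖∑ i ∈ Finset.range q, w ^ i‖ ≤ 1 := by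
      refine IsUltrametricDist.norm_sum_le_of_forall_le_of_nonneg zero_le_one ?_
      intro i _
      rw [norm_pow, hw1, one_pow]
    calc ‖w - 1‖ * ‖∑ i ∈ Finset.range q, w ^ i‖ ≤ (1 / p : ℝ) ^ 2 * 1 :=
          mul_le_mul h6 h9 (norm_nonneg _) (by positivity)
      _ = _ := mul_one _
  rw [Finset.mem_range] at hi hj
  rcases lt_or_gt_of_ne hij with h | h
  · exact key i j h (by omega) hcij
  · exact key j i h (by omega) hcij.symm

theorem pow_near {u : ℂ_[p]} (hu : ‖u‖ = 1) {m n : ℕ} (hmn : m ∣ n)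
    (h : ‖u ^ m - 1‖ ≤ (1 / p : ℝ) ^ 2) : ‖u ^ n - 1‖ ≤ (1 / p : ℝ) ^ 2 := by
  obtain ⟨q, rfl⟩ := hmn
  rw [pow_mul]
  set w := u ^ m with hw
  have hw1 : ‖w‖ = 1 := by rw [hw, norm_pow, hu, one_pow]
  have h8 : w ^ q - 1 = (w - 1) * ∑ i ∈ Finset.range q, w ^ i := by
    rw [mul_comm, geom_sum_mul]
  rw [h8, norm_mul]
  have h9 : ‖∑ i ∈ Finset.range q, w ^ i‖ ≤ 1 := by
    refine IsUltrametricDist.norm_sum_le_of_forall_le_of_nonneg zero_le_one ?_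
    intro i _
    rw [norm_pow, hw1, one_pow]
  calc ‖w - 1‖ * ‖∑ i ∈ Finset.range q, w ^ i‖ ≤ (1 / p : ℝ) ^ 2 * 1 :=
        mul_le_mul h h9 (norm_nonneg _) (by positivity)
    _ = _ := mul_one _

theorem t : Pool.Agent.Helper16.SD.Z_NEAR := by
  intro p hp E _ _ Lg
  classical
  have hex : ∀ τ : E →+* ℂ_[p], ∃ m : ℕ, 0 < m ∧ ∀ x : E, ‖τ x‖ = 1 →
      ‖τ x ^ m - 1‖ ≤ (1 / p : ℝ) ^ 2 := by
    intro τ
    obtain ⟨𝓕, hfd, h, -, -⟩ := Pool.Agent.Helper53.PW.l_clo p ℂ_[p] E τ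
    obtain ⟨m, hm, hm2⟩ := sphere_pow 𝓕
    exact ⟨m, hm, fun x hx => hm2 (τ x) (h x) hx⟩
  choose m hm hm2 using hex
  have hfin : Finite (E →+* ℂ_[p]) := inferInstance
  have := Fintype.ofFinite (E →+* ℂ_[p])
  have hM : 0 < ∏ τ, m τ := Finset.prod_pos fun τ _ => hm τ
  obtain ⟨b, c, hc, hbc⟩ := Nat.exists_eq_pow_mul_and_not_dvd hM.ne' p hp.out.ne_one
  have hc0 : 0 < c := Nat.pos_of_ne_zero (by rintro rfl; exact hc (dvd_zero p))
  refine ⟨c, b, hc0, hc, ?_⟩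
  intro x τ hx
  have h1 : ‖τ (x : E) ^ (c * p ^ b) - 1‖ ≤ (1 / p : ℝ) ^ 2 := by
    refine pow_near hx ?_ (hm2 τ x hx)
    rw [mul_comm, ← hbc]
    exact Finset.dvd_prod_of_mem m (Finset.mem_univ τ)
  refine ⟨h1, ?_⟩
  have h2 := Pool.Agent.Helper31.TH.log_near Lg (Units.map (τ : E →* ℂ_[p]) (x ^ (c * p ^ b)))
  have h3 : ((Units.map (τ : E →* ℂ_[p]) (x ^ (c * p ^ b)) : ℂ_[p]ˣ) : ℂ_[p]) =
      τ (x : E) ^ (c * p ^ b) := by
    rw [map_pow, Units.val_pow_eq_pow_val]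
    rfl
  rw [h3] at h2
  exact (h2 h1).symm

end Pool.Agent.Helper66.SD.Z_NEAR
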