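import Pool.Agent.Helper16.SD.GoalsD
import Pool.Agent.Helper31.TH.Loc

/-!
# Project SD (MP_fc6b1e_nt): Z_ONE
-/

set_option autoImplicit false

namespace Pool.Agent.Helper66.SD.Z_ONE

open NumberField Module Pool.Agent.Helper51.SigLeo Pool.Agent.Helper16.SD
open Pool.Agent.Helper38.FW (InDec)

/-- A factor of `y^n - 1` is small if `y^n - 1` is very small. -/
theorem small_factor {p : ℕ} [hp : Fact p.Prime] {Ω : Type} [Field Ω] [CharZero Ω] [IsAlgClosed Ω]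
    (τ : Ω →+* ℂ_[p]) (n : ℕ) (hn : 0 < n) (y : Ω)
    (h : ‖τ (y ^ n - 1)‖ ≤ (1 / p : ℝ) ^ (2 * n)) :
    ∃ ξ : Ω, ξ ^ n = 1 ∧ ‖τ (y - ξ)‖ ≤ (1 / p : ℝ) ^ 2 := by
  classical
  have hp0 : (0 : ℝ) < p := by exact_mod_cast hp.out.pos
  have : NeZero (n : Ω) := ⟨by exact_mod_cast hn.ne'⟩
  have : NeZero n := ⟨hn.ne'⟩
  obtain ⟨z, hz⟩ := HasEnoughRootsOfUnity.exists_primitiveRoot Ω n
  by_contra hcon
  push Not at hcon
  have h1 := congrArg (Polynomial.eval y) (Polynomial.X_pow_sub_one_eq_prod hn hz)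
  simp only [Polynomial.eval_sub, Polynomial.eval_pow, Polynomial.eval_X, Polynomial.eval_one,
    Polynomial.eval_prod, Polynomial.eval_C] at h1
  rw [h1, map_prod, norm_prod, pow_mul] at h
  have h2 : ∏ ξ ∈ Polynomial.nthRootsFinset n (1 : Ω), ((1 / p : ℝ) ^ 2) <
      ∏ ξ ∈ Polynomial.nthRootsFinset n (1 : Ω), ‖τ (y - ξ)‖ := by
    refine Finset.prod_lt_prod_of_nonempty (fun _ _ => by positivity) ?_ ?_
    · intro ξ hξ
      exact hcon ξ ((Polynomial.mem_nthRootsFinset hn _).1 hξ)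
    · exact ⟨1, (Polynomial.mem_nthRootsFinset hn _).2 (one_pow n)⟩
  rw [Finset.prod_const, hz.card_nthRootsFinset] at h2
  linarith

theorem t (h1 : Z_NEAR) (h2 : K_SPEC) : Z_ONE := by
  intro p hp K _ _ Lg E _ k
  obtain ⟨c, b, hc0, hc, hZ⟩ := h1 p E Lg
  have hp0 : (0 : ℝ) < p := by exact_mod_cast hp.out.pos
  have hp1 : (1 : ℝ) < p := by exact_mod_cast hp.out.one_lt
  refine ⟨2 * p ^ (b + k), b + k, ?_⟩
  intro e τ hlog ζ hζ h hE hμ hdec
  obtain ⟨s1, -⟩ := h2 p K k ζ hζ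
  set x : AlgebraicClosure K := (((e : (𝓞 E)ˣ) : E) : AlgebraicClosure K) with hx
  have hx0 : x ≠ 0 := by
    rw [hx]
    have : (((e : (𝓞 E)ˣ) : E)) ≠ 0 := by
      have := e.ne_zero
      intro h0
      exact this (RingOfIntegers.coe_injective (by rw [map_zero]; exact h0))
    exact fun h0 => this (Subtype.ext h0)
  have hhx : h x = x := hE _ (SetLike.coe_mem _)
  have hζn : ζ ^ p ^ (b + k) = 1 := by
    rw [add_comm, pow_add, pow_mul, hζ.pow_eq_one, one_pow]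
  have hhζ : h ζ = ζ := hμ ζ hζn
  obtain ⟨r, hr⟩ := IsAlgClosed.exists_pow_nat_eq x (n := p ^ k) (pow_pos hp.out.pos k)
  set κ := kum p k ζ x h with hκ
  have hhr : h r = ζ ^ κ.val * r := (s1 x h hx0 hhζ hhx r hr _).2 rfl
  set n := p ^ (b + k) with hn
  have hn0 : 0 < n := pow_pos hp.out.pos _
  set y := r ^ c with hy
  have hyn : y ^ n = x ^ (c * p ^ b) := by
    rw [hy, hn, ← hr, ← pow_mul, ← pow_mul]
    congr 1
    ring
  set τE : E →+* ℂ_[p] := τ.comp (algebraMap E (AlgebraicClosure K)) with hτE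
  set X : Eˣ := Units.map (algebraMap (𝓞 E) E : 𝓞 E →* E) e with hX
  have hXx : τE (X : E) = τ x := rfl
  have hXn : ‖τE (X : E)‖ = 1 := by
    have e1 : ‖τE (X : E)‖ ≤ 1 :=
      norm_map_le_one p τE (RingOfIntegers.isIntegral_coe (e : 𝓞 E))
    have e2 : ‖τE ((X⁻¹ : Eˣ) : E)‖ ≤ 1 :=
      norm_map_le_one p τE (RingOfIntegers.isIntegral_coe ((e⁻¹ : (𝓞 E)ˣ) : 𝓞 E))
    have e3 : ‖τE (X : E)‖ * ‖τE ((X⁻¹ : Eˣ) : E)‖ = 1 := by
      rw [← norm_mul, ← map_mul, Units.mul_inv, map_one, norm_one]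
    have e4 := norm_nonneg (τE (X : E))
    nlinarith
  obtain ⟨hZ1, hZ2⟩ := hZ X τE hXn
  have hsm : ‖τ (y ^ n - 1)‖ ≤ (1 / p : ℝ) ^ (2 * n) := by
    rw [hyn, map_sub, map_one, map_pow, ← hXx, hZ2, map_pow,
      Pool.Agent.Helper39.RP.log_pow, nsmul_eq_mul, norm_mul]
    have e1 : ‖((c * p ^ b : ℕ) : ℂ_[p])‖ ≤ 1 := by
      exact IsUltrametricDist.norm_natCast_le_one _ _
    refine (mul_le_mul e1 hlog (norm_nonneg _) zero_le_one).trans ?_
    rw [one_mul]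
  obtain ⟨ξ, hξ, hyξ⟩ := small_factor τ n hn0 y hsm
  have hyn1 : ‖τ y‖ = 1 := by
    have e1 : ‖τ y‖ ^ n = 1 := by
      rw [← norm_pow, ← map_pow, hyn, map_pow, norm_pow, ← hXx, hXn, one_pow]
    exact (pow_eq_one_iff_of_nonneg (norm_nonneg _) hn0.ne').1 e1
  have hh : ‖τ (h (y - ξ))‖ ≤ (1 / p : ℝ) ^ 2 := by
    rw [hdec]
    exact hyξ
  have hhy : h y = (ζ ^ κ.val) ^ c * y := by
    rw [hy, map_pow, hhr, mul_pow]
  rw [map_sub, hμ ξ hξ, hhy] at hh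
  set z := (ζ ^ κ.val) ^ c with hz
  have hz1 : ‖τ z - 1‖ ≤ (1 / p : ℝ) ^ 2 := by
    have e1 : τ z * τ y - τ y = (τ (z * y - ξ)) - τ (y - ξ) := by
      simp only [map_sub, map_mul]
      ring
    have e2 : ‖τ z * τ y - τ y‖ ≤ (1 / p : ℝ) ^ 2 := by
      rw [e1, sub_eq_add_neg]
      refine (IsUltrametricDist.norm_add_le_max _ _).trans (max_le hh ?_)
      rw [norm_neg]
      exact hyξ
    have e3 : τ z * τ y - τ y = (τ z - 1) * τ y := by ring
    rw [e3, norm_mul, hyn1, mul_one] at e2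
    exact e2
  have hzn : z ^ n = 1 := by
    have e1 : z ^ n = ((ζ ^ n) ^ κ.val) ^ c := by
      rw [hz]
      ring
    rw [e1, hζn, one_pow, one_pow]
  have hz0 : τ z ≠ 0 := by
    intro h0
    have := congrArg τ hzn
    rw [map_pow, h0, zero_pow hn0.ne', map_one] at this
    exact zero_ne_one this
  have hz2 := Pool.Agent.Helper31.TH.tors_near Lg (Units.mk0 (τ z) hz0) n hn0
    (by
      apply Units.ext
      rw [Units.val_pow_eq_pow_val, Units.val_mk0, ← map_pow, hzn, map_one, Units.val_one]) hz1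
  have hz3 : z = 1 := by
    have := congrArg Units.val hz2
    rw [Units.val_mk0, Units.val_one] at this
    exact τ.injective (by rw [this, map_one])
  rw [hz, ← pow_mul] at hz3
  have hdvd := (hζ.pow_eq_one_iff_dvd _).1 hz3
  have hcop : Nat.Coprime (p ^ k) c :=
    Nat.Coprime.pow_left k ((Nat.Prime.coprime_iff_not_dvd hp.out).2 hc)
  have hdvd2 : p ^ k ∣ κ.val := hcop.dvd_of_dvd_mul_right hdvd
  have : NeZero (p ^ k) := ⟨(pow_pos hp.out.pos k).ne'⟩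
  have hlt := ZMod.val_lt κ
  have h0 := Nat.eq_zero_of_dvd_of_lt hdvd2 hlt
  exact (ZMod.val_eq_zero κ).1 h0

end Pool.Agent.Helper66.SD.Z_ONE
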