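import Pool.Agent.Helper16.SD.GoalsJ
import Pool.Agent.Helper31.TH.Loc

/-!
# Project SD (MP_fc6b1e_nt): J_F
-/

set_option autoImplicit false

namespace Pool.Agent.Helper66.SD.J_F

open NumberField Module Pool.Agent.Helper51.SigLeo Pool.Agent.Helper16.SD

section lemmas

variable {p : ℕ} [hp : Fact p.Prime] {K F : Type} [Field K] [Field F] [Algebra K F]

theorem lgh_mul (Lg : IwasawaLog p ℂ_[p]) (τ : F →+* ℂ_[p]) (h : F ≃ₐ[K] F) (x y : Fˣ) :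
    lgh Lg τ h (x * y) = lgh Lg τ h x + lgh Lg τ h y := by
  unfold lgh
  rw [map_mul, Lg.map_mul]

theorem lgh_hx (Lg : IwasawaLog p ℂ_[p]) (τ : F →+* ℂ_[p]) (h k : F ≃ₐ[K] F) (x : Fˣ) :
    lgh Lg τ h (hx k x) = lgh Lg τ (h * k) x := rfl

theorem UAt_mul {τ : F →+* ℂ_[p]} {x y : Fˣ} (hx : UAt K τ x) (hy : UAt K τ y) :
    UAt K τ (x * y) := by
  intro h
  rw [Units.val_mul, map_mul, map_mul, norm_mul, hx h, hy h, one_mul]

theorem UAt_hx {τ : F →+* ℂ_[p]} {x : Fˣ} (h : UAt K τ x) (k : F ≃ₐ[K] F) :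
    UAt K τ (hx k x) := fun h' => h (h' * k)

/-- the matrix of the normal basis is invertible. -/
theorem isUnit_A [NumberField K] [NumberField F] [IsGalois K F] (τ : F →+* ℂ_[p]) [DecidableEq (F ≃ₐ[K] F)] :
    IsUnit (Matrix.of fun g h : F ≃ₐ[K] F => τ (h (g (IsGalois.normalBasis K F 1)))) := by
  rw [← Matrix.mulVec_injective_iff_isUnit]
  rw [← Matrix.coe_mulVecLin, ← LinearMap.ker_eq_bot, LinearMap.ker_eq_bot']
  intro a ha
  rw [Matrix.mulVecLin_apply] at ha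
  have h1 : ∀ y : F, ∑ h : F ≃ₐ[K] F, τ (h y) * a h = 0 := by
    intro y
    have h2 := (IsGalois.normalBasis K F).sum_repr y
    rw [← h2]
    simp only [map_sum, Finset.sum_mul]
    rw [Finset.sum_comm]
    refine Finset.sum_eq_zero fun g _ => ?_
    have h3 := congrFun ha g
    rw [Matrix.mulVec, dotProduct, Pi.zero_apply] at h3
    have h4 : ∀ h : F ≃ₐ[K] F, τ (h ((IsGalois.normalBasis K F).repr y g •
        IsGalois.normalBasis K F g)) * a h =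
        τ (algebraMap K F ((IsGalois.normalBasis K F).repr y g)) *
          (τ (h (g (IsGalois.normalBasis K F 1))) * a h) := by
      intro h
      rw [Algebra.smul_def, map_mul h, AlgEquiv.commutes, map_mul, IsGalois.normalBasis_apply,
        mul_assoc]
    simp only [h4]
    rw [← Finset.mul_sum]
    have h5 : ∑ h : F ≃ₐ[K] F, τ (h (g (IsGalois.normalBasis K F 1))) * a h = 0 := h3
    rw [h5, mul_zero]
  have hli := (linearIndependent_monoidHom F ℂ_[p]).comp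
    (fun h : F ≃ₐ[K] F => ((τ.comp (h : F →+* F) : F →+* ℂ_[p]) : F →* ℂ_[p])) (by
      intro h h' hh
      ext y
      exact τ.injective (DFunLike.congr_fun hh y))
  rw [Fintype.linearIndependent_iff] at hli
  funext h
  refine hli a ?_ h
  funext y
  rw [Finset.sum_apply, Pi.zero_apply, ← h1 y]
  refine Finset.sum_congr rfl fun g _ => ?_
  rw [Pi.smul_apply, smul_eq_mul, mul_comm]
  rfl

theorem char_sum [Fintype (F ≃ₐ[K] F)] (τ : F →+* ℂ_[p]) (ψ : (F ≃ₐ[K] F) →* ℂ_[p]ˣ)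
    (h : F ≃ₐ[K] F) (b : F) : ∑ g : F ≃ₐ[K] F, ((ψ g : ℂ_[p]ˣ) : ℂ_[p]) * τ (h (g b)) =
      (((ψ h)⁻¹ : ℂ_[p]ˣ) : ℂ_[p]) * ∑ g : F ≃ₐ[K] F, ((ψ g : ℂ_[p]ˣ) : ℂ_[p]) * τ (g b) := by
  rw [← Equiv.sum_comp (Equiv.mulLeft h⁻¹), Finset.mul_sum]
  refine Finset.sum_congr rfl fun g _ => ?_
  have e1 : h ((h⁻¹ * g) b) = g b := by
    rw [← AlgEquiv.mul_apply, mul_inv_cancel_left]
  rw [Equiv.coe_mulLeft]
  change ((ψ (h⁻¹ * g) : ℂ_[p]ˣ) : ℂ_[p]) * τ (h ((h⁻¹ * g) b)) = _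
  rw [e1, map_mul, map_inv, Units.val_mul, mul_assoc]

theorem lgh_bound [NumberField F] (hZ : Z_NEAR) (Lg : IwasawaLog p ℂ_[p]) (τ : F →+* ℂ_[p]) :
    ∃ b : ℕ, ∀ x : Fˣ, UAt K τ x → ∀ h : F ≃ₐ[K] F, ‖lgh Lg τ h x‖ ≤ (p : ℝ) ^ b := by
  obtain ⟨c, b, hc0, hc, hZ⟩ := hZ p F Lg
  have hp0 : (0 : ℝ) < p := by exact_mod_cast hp.out.pos
  have hp1 : (1 : ℝ) < p := by exact_mod_cast hp.out.one_lt
  refine ⟨b, fun x hx h => ?_⟩
  obtain ⟨h1, h2⟩ := hZ x (τ.comp (h : F →+* F)) (hx h)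
  rw [h2, map_pow, Pool.Agent.Helper39.RP.log_pow, nsmul_eq_mul, norm_mul] at h1
  have h3 : ‖((c * p ^ b : ℕ) : ℂ_[p])‖ = ((p : ℝ) ^ b)⁻¹ := by
    have e1 : ((c * p ^ b : ℕ) : ℂ_[p]) = algebraMap ℚ_[p] ℂ_[p] ((c : ℚ_[p]) * (p : ℚ_[p]) ^ b) := by
      push_cast
      simp
    rw [e1, norm_algebraMap', norm_mul, norm_pow, Padic.norm_p, inv_pow]
    have e2 : ‖(c : ℚ_[p])‖ = 1 := by
      have := Padic.norm_natCast_eq_one_iff (p := p) (n := c)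
      rw [this]
      exact (Nat.Prime.coprime_iff_not_dvd hp.out).2 hc
    rw [e2, one_mul]
  rw [h3, inv_mul_le_iff₀ (by positivity)] at h1
  have h4 : ((1 : ℝ) / p) ^ 2 ≤ 1 := by
    refine pow_le_one₀ (by positivity) ?_
    rw [div_le_one hp0]
    exact hp1.le
  calc ‖lgh Lg τ h x‖ ≤ (p : ℝ) ^ b * (1 / p) ^ 2 := h1
    _ ≤ (p : ℝ) ^ b * 1 := mul_le_mul_of_nonneg_left h4 (by positivity)
    _ = _ := mul_one _

end lemmas

theorem t (hZ : Z_NEAR) (hR : J_RAT) : Pool.Agent.Helper16.SD.J_F := by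
  classical
  intro p hp K F _ _ _ _ _ _ hsplit Lg τ
  have hp0 : (0 : ℝ) < p := by exact_mod_cast hp.out.pos
  have hp1 : (1 : ℝ) < p := by exact_mod_cast hp.out.one_lt
  set b : F := IsGalois.normalBasis K F 1 with hb
  have hrat := fun (x : Fˣ) (hx : UAt K τ x) (g : F ≃ₐ[K] F) => hR p K F hsplit Lg τ x hx (g b)
  choose f0 hf0 using hrat
  set f : Fˣ → (F ≃ₐ[K] F) → ℚ_[p] := fun x g => if hx : UAt K τ x then f0 x hx g else 0 with hf
  have hfe : ∀ x, UAt K τ x → ∀ g, algebraMap ℚ_[p] ℂ_[p] (f x g) =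
      ∑ h : F ≃ₐ[K] F, τ (h (g b)) * lgh Lg τ h x := by
    intro x hx g
    rw [hf]
    simp only [hx, dif_pos]
    exact (hf0 x hx g).symm
  set A : Matrix (F ≃ₐ[K] F) (F ≃ₐ[K] F) ℂ_[p] :=
    Matrix.of fun g h : F ≃ₐ[K] F => τ (h (g b)) with hA
  have hAu : IsUnit A := isUnit_A τ
  have hAd : IsUnit A.det := (Matrix.isUnit_iff_isUnit_det _).1 hAu
  have hinj : Function.Injective (algebraMap ℚ_[p] ℂ_[p]) := (algebraMap ℚ_[p] ℂ_[p]).injective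
  obtain ⟨b0, hb0⟩ := lgh_bound (K := K) hZ Lg τ
  have hC : ∃ C : ℕ, ∀ g h, ‖A g h‖ ≤ (p : ℝ) ^ C := by
    have h1 : ∀ q : ℝ, ∃ b : ℕ, q ≤ (p : ℝ) ^ b := by
      intro q
      obtain ⟨b, hb⟩ := pow_unbounded_of_one_lt q hp1
      exact ⟨b, hb.le⟩
    choose bb hbb using fun x : (F ≃ₐ[K] F) × (F ≃ₐ[K] F) => h1 ‖A x.1 x.2‖
    refine ⟨Finset.univ.sup bb, fun g h => ?_⟩
    refine (hbb (g, h)).trans ?_
    exact pow_le_pow_right₀ hp1.le (Finset.le_sup (f := bb) (Finset.mem_univ _))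
  obtain ⟨C, hC⟩ := hC
  refine ⟨f, fun g h => A⁻¹ h g, C + b0, ?_, ?_, ?_, ?_, ?_⟩
  · intro x y hx hy g
    apply hinj
    rw [map_add, hfe _ (UAt_mul hx hy), hfe x hx, hfe y hy, ← Finset.sum_add_distrib]
    refine Finset.sum_congr rfl fun h _ => ?_
    rw [lgh_mul, mul_add]
  · intro x hx h g
    apply hinj
    rw [hfe _ (UAt_hx hx h), hfe x hx]
    simp only [lgh_hx]
    rw [← Equiv.sum_comp (Equiv.mulRight h) (fun h' => τ (h' ((h⁻¹ * g) b)) * lgh Lg τ h' x)]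
    refine Finset.sum_congr rfl fun h' _ => ?_
    rw [Equiv.coe_mulRight]
    congr 2
    rw [← AlgEquiv.mul_apply, ← AlgEquiv.mul_apply, mul_assoc, mul_inv_cancel_left]
  · intro x hx h
    have h1 : (fun g => algebraMap ℚ_[p] ℂ_[p] (f x g)) = A.mulVec (fun h => lgh Lg τ h x) := by
      funext g
      rw [hfe x hx]
      rfl
    have h2 : A⁻¹.mulVec (fun g => algebraMap ℚ_[p] ℂ_[p] (f x g)) = fun h => lgh Lg τ h x := by
      rw [h1, Matrix.mulVec_mulVec, Matrix.nonsing_inv_mul _ hAd, Matrix.one_mulVec]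
    have h3 := congrFun h2 h
    rw [← h3, Matrix.mulVec, dotProduct]
    exact Finset.sum_congr rfl fun g _ => mul_comm _ _
  · intro ψ
    refine ⟨∑ g, ((ψ g : ℂ_[p]ˣ) : ℂ_[p]) * τ (g b), ?_, ?_⟩
    · intro h0
      have h1 : Matrix.vecMul (fun g => ((ψ g : ℂ_[p]ˣ) : ℂ_[p])) A = 0 := by
        funext h
        rw [Matrix.vecMul, dotProduct, Pi.zero_apply]
        have h2 : ∑ g, ((ψ g : ℂ_[p]ˣ) : ℂ_[p]) * A g h =
            (((ψ h)⁻¹ : ℂ_[p]ˣ) : ℂ_[p]) * ∑ g, ((ψ g : ℂ_[p]ˣ) : ℂ_[p]) * τ (g b) :=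
          char_sum τ ψ h b
        rw [h2, h0, mul_zero]
      have h3 : (fun g => ((ψ g : ℂ_[p]ˣ) : ℂ_[p])) = 0 := by
        have h4 := congrArg (fun v => Matrix.vecMul v A⁻¹) h1
        simp only [Matrix.vecMul_vecMul, Matrix.mul_nonsing_inv _ hAd, Matrix.vecMul_one,
          Matrix.zero_vecMul] at h4
        exact h4
      have h5 := congrFun h3 1
      simp at h5
    · intro x hx
      simp only [hfe x hx, Finset.mul_sum]
      rw [Finset.sum_comm]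
      refine Finset.sum_congr rfl fun h _ => ?_
      have h2 : ∑ g, ((ψ g : ℂ_[p]ˣ) : ℂ_[p]) * (τ (h (g b)) * lgh Lg τ h x) =
          (∑ g, ((ψ g : ℂ_[p]ˣ) : ℂ_[p]) * A g h) * lgh Lg τ h x := by
        rw [Finset.sum_mul]
        refine Finset.sum_congr rfl fun g _ => ?_
        rw [mul_assoc]
        rfl
      have h3 : ∑ g, ((ψ g : ℂ_[p]ˣ) : ℂ_[p]) * A g h =
            (((ψ h)⁻¹ : ℂ_[p]ˣ) : ℂ_[p]) * ∑ g, ((ψ g : ℂ_[p]ˣ) : ℂ_[p]) * τ (g b) :=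
        char_sum τ ψ h b
      rw [h2, h3]
      ring
  · intro x hx g
    have h1 : ‖f x g‖ = ‖algebraMap ℚ_[p] ℂ_[p] (f x g)‖ := (norm_algebraMap' _ _).symm
    rw [h1, hfe x hx]
    refine IsUltrametricDist.norm_sum_le_of_forall_le_of_nonneg (by positivity) fun h _ => ?_
    rw [norm_mul, pow_add]
    exact mul_le_mul (hC g h) (hb0 x hx h) (norm_nonneg _) (by positivity)

end Pool.Agent.Helper66.SD.J_F
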