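import Pool.Agent.Helper16.SD.GoalsJ

/-!
# Project SD (MP_fc6b1e_nt): J_ALG
-/

set_option autoImplicit false

namespace Pool.Agent.Helper66.SD.J_ALG

open Module Pool.Agent.Helper16.SD

section fourier

variable {k : Type} [Field k] {G : Type} [CommGroup G] [Fintype G]

/-- the Fourier transform -/
noncomputable def FT (k : Type) [Field k] (G : Type) [CommGroup G] [Fintype G] :
    (G → k) →ₗ[k] ((G →* kˣ) → k) where
  toFun f ψ := ∑ g, ((ψ g : kˣ) : k) * f g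
  map_add' a b := by
    funext ψ
    simp only [Pi.add_apply, mul_add, Finset.sum_add_distrib]
  map_smul' c a := by
    funext ψ
    simp only [Pi.smul_apply, smul_eq_mul, RingHom.id_apply, Finset.mul_sum]
    refine Finset.sum_congr rfl fun g _ => ?_
    ring

theorem FT_conv (D M : G → k) (ψ : G →* kˣ) :
    ∑ g, ((ψ g : kˣ) : k) * ∑ h, D h * M (h⁻¹ * g) =
      (∑ h, ((ψ h : kˣ) : k) * D h) * ∑ g, ((ψ g : kˣ) : k) * M g := by
  simp only [Finset.mul_sum, Finset.sum_mul]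
  rw [Finset.sum_comm]
  have key : ∀ h, (∑ g, ((ψ g : kˣ) : k) * (D h * M (h⁻¹ * g))) =
      ∑ g, ((ψ h : kˣ) : k) * D h * (((ψ g : kˣ) : k) * M g) := by
    intro h
    rw [← Equiv.sum_comp (Equiv.mulLeft h)]
    refine Finset.sum_congr rfl fun g _ => ?_
    rw [Equiv.coe_mulLeft, inv_mul_cancel_left, map_mul, Units.val_mul]
    ring
  simp only [key]
  exact Finset.sum_comm

theorem FT_bij [IsAlgClosed k] [CharZero k] : Function.Bijective (FT k G) := by
  classical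
  obtain ⟨E⟩ := CommGroup.monoidHom_mulEquiv_of_hasEnoughRootsOfUnity G k
  have : Fintype (G →* kˣ) := Fintype.ofEquiv G E.symm.toEquiv
  have hcard : Fintype.card (G →* kˣ) = Fintype.card G := Fintype.card_congr E.toEquiv
  -- the characters are linearly independent
  have hli : LinearIndependent k fun ψ : G →* kˣ => fun g : G => ((ψ g : kˣ) : k) := by
    have h1 := (linearIndependent_monoidHom G k).comp
      (fun ψ : G →* kˣ => (Units.coeHom k).comp ψ) (by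
        intro a b hab
        ext g
        exact DFunLike.congr_fun hab g)
    exact h1
  have hspan : Submodule.span k (Set.range fun ψ : G →* kˣ => fun g : G => ((ψ g : kˣ) : k)) = ⊤ := by
    refine hli.span_eq_top_of_card_eq_finrank ?_
    rw [hcard, Module.finrank_fintype_fun_eq_card]
  have hinj : Function.Injective (FT k G) := by
    rw [injective_iff_map_eq_zero]
    intro f hf
    -- the linear functional defined by `f`
    let L : (G → k) →ₗ[k] k := ∑ g, f g • LinearMap.proj g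
    have hL : ∀ u, L u = ∑ g, f g * u g := by
      intro u
      simp [L]
    have hL0 : L = 0 := by
      refine LinearMap.ext_on hspan ?_
      rintro _ ⟨ψ, rfl⟩
      rw [hL, LinearMap.zero_apply]
      have := congrFun hf ψ
      rw [Pi.zero_apply] at this
      rw [← this]
      change _ = ∑ g, ((ψ g : kˣ) : k) * f g
      refine Finset.sum_congr rfl fun g _ => mul_comm _ _
    funext g
    have h1 := hL (Pi.single g 1)
    rw [hL0, LinearMap.zero_apply] at h1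
    simpa [Pi.single_apply] using h1.symm
  refine ⟨hinj, ?_⟩
  refine (LinearMap.injective_iff_surjective_of_finrank_eq_finrank ?_).1 hinj
  rw [Module.finrank_fintype_fun_eq_card, Module.finrank_fintype_fun_eq_card, hcard]

theorem swap {R : Type} [CommRing R] (A B : G → R) (l g : G) :
    ∑ h, A (l⁻¹ * h) * B (h⁻¹ * g) = ∑ h, B (l⁻¹ * h) * A (h⁻¹ * g) := by
  rw [← ((Equiv.inv G).trans (Equiv.mulLeft (l * g))).sum_comp]
  refine Finset.sum_congr rfl fun h _ => ?_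
  simp only [Equiv.trans_apply, Equiv.inv_apply, Equiv.coe_mulLeft]
  rw [mul_comm (B _)]
  congr 2
  · rw [mul_assoc, inv_mul_cancel_left, mul_comm]
  · rw [mul_inv_rev, inv_inv, mul_inv_rev]
    calc h * (g⁻¹ * l⁻¹) * g = h * l⁻¹ * (g⁻¹ * g) := by
          simp only [mul_assoc, mul_comm, mul_left_comm]
      _ = l⁻¹ * h := by rw [inv_mul_cancel, mul_one, mul_comm]

end fourier

theorem main (p : ℕ) [hp : Fact p.Prime] (G : Type) [CommGroup G] [Fintype G]
    (β : Type) [Fintype β] [DecidableEq β] (m : β → β → G → ℚ_[p]) (e : G → ℤ_[p])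
    (hyp : ∀ ψ : G →* ℂ_[p]ˣ, ∑ g, zp p (e g) * ((ψ g : ℂ_[p]ˣ) : ℂ_[p]) ≠ 0 →
      (Matrix.of fun i j ↦
        ∑ g, ((ψ g : ℂ_[p]ˣ) : ℂ_[p]) * algebraMap ℚ_[p] ℂ_[p] (m i j g)).det ≠ 0) :
    ∃ b : ℕ, ∀ y : β → G → ℤ_[p], ∃ α : β → G → ℤ_[p], ∀ i g,
      (p : ℚ_[p]) ^ b * ∑ h, ((e h : ℤ_[p]) : ℚ_[p]) * ((y i (h⁻¹ * g) : ℤ_[p]) : ℚ_[p]) =
        ∑ j, ∑ h, ((α j h : ℤ_[p]) : ℚ_[p]) * m i j (h⁻¹ * g) := by
  classical
  obtain ⟨hinj, hsurj⟩ := FT_bij (k := ℂ_[p]) (G := G)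
  set ee : (G →* ℂ_[p]ˣ) → ℂ_[p] := fun ψ => ∑ g, zp p (e g) * ((ψ g : ℂ_[p]ˣ) : ℂ_[p]) with hee
  set MM : (G →* ℂ_[p]ˣ) → Matrix β β ℂ_[p] := fun ψ => Matrix.of fun i j ↦
        ∑ g, ((ψ g : ℂ_[p]ˣ) : ℂ_[p]) * algebraMap ℚ_[p] ℂ_[p] (m i j g) with hMM
  choose D' hD' using fun (j l : β) => hsurj (fun ψ => ee ψ * (MM ψ)⁻¹ j l)
  have hD'' : ∀ j l ψ, ∑ g, ((ψ g : ℂ_[p]ˣ) : ℂ_[p]) * D' j l g = ee ψ * (MM ψ)⁻¹ j l :=
    fun j l ψ => congrFun (hD' j l) ψ
  -- the equation over `ℂ_p`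
  have heq : ∀ i l g, ∑ j, ∑ h, D' j l h * algebraMap ℚ_[p] ℂ_[p] (m i j (h⁻¹ * g)) =
      if i = l then zp p (e g) else 0 := by
    intro i l
    have h1 : (fun g => ∑ j, ∑ h, D' j l h * algebraMap ℚ_[p] ℂ_[p] (m i j (h⁻¹ * g))) =
        fun g => if i = l then zp p (e g) else 0 := by
      apply hinj
      funext ψ
      change ∑ g, ((ψ g : ℂ_[p]ˣ) : ℂ_[p]) * (∑ j, ∑ h, D' j l h *
        algebraMap ℚ_[p] ℂ_[p] (m i j (h⁻¹ * g))) =
        ∑ g, ((ψ g : ℂ_[p]ˣ) : ℂ_[p]) * (if i = l then zp p (e g) else 0)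
      have h2 : ∑ g, ((ψ g : ℂ_[p]ˣ) : ℂ_[p]) * (∑ j, ∑ h, D' j l h *
          algebraMap ℚ_[p] ℂ_[p] (m i j (h⁻¹ * g))) = ∑ j, MM ψ i j * (ee ψ * (MM ψ)⁻¹ j l) := by
        simp only [Finset.mul_sum (s := (Finset.univ : Finset β))]
        rw [Finset.sum_comm]
        refine Finset.sum_congr rfl fun j _ => ?_
        rw [FT_conv (D' j l) (fun g => algebraMap ℚ_[p] ℂ_[p] (m i j g)) ψ, hD'' j l ψ, mul_comm]
        rfl
      rw [h2]
      have h3 : ∑ g, ((ψ g : ℂ_[p]ˣ) : ℂ_[p]) * (if i = l then zp p (e g) else 0) =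
          if i = l then ee ψ else 0 := by
        split_ifs
        · rw [hee]
          exact Finset.sum_congr rfl fun g _ => mul_comm _ _
        · simp
      rw [h3]
      by_cases he : ee ψ = 0
      · rw [he]
        simp
      · have hdet : IsUnit (MM ψ).det := isUnit_iff_ne_zero.2 (hyp ψ he)
        have h4 : MM ψ * (MM ψ)⁻¹ = 1 := Matrix.mul_nonsing_inv _ hdet
        have h5 := congrFun (congrFun h4 i) l
        rw [Matrix.mul_apply, Matrix.one_apply] at h5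
        calc ∑ j, MM ψ i j * (ee ψ * (MM ψ)⁻¹ j l) = ee ψ * ∑ j, MM ψ i j * (MM ψ)⁻¹ j l := by
              rw [Finset.mul_sum]
              refine Finset.sum_congr rfl fun j _ => ?_
              ring
          _ = _ := by
              rw [h5]
              split_ifs <;> simp
    exact fun g => congrFun h1 g
  -- a linear retraction
  obtain ⟨r, hr⟩ := LinearMap.exists_leftInverse_of_injective
    (Algebra.linearMap ℚ_[p] ℂ_[p]) (by
      rw [LinearMap.ker_eq_bot]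
      exact (algebraMap ℚ_[p] ℂ_[p]).injective)
  have hr1 : ∀ q : ℚ_[p], r (algebraMap ℚ_[p] ℂ_[p] q) = q := fun q => LinearMap.congr_fun hr q
  set D : β → β → G → ℚ_[p] := fun j l h => r (D' j l h) with hD
  have heq2 : ∀ i l g, ∑ j, ∑ h, D j l h * m i j (h⁻¹ * g) =
      if i = l then ((e g : ℤ_[p]) : ℚ_[p]) else 0 := by
    intro i l g
    have h1 := congrArg r (heq i l g)
    rw [map_sum] at h1
    simp only [map_sum] at h1
    have h2 : ∀ j h, r (D' j l h * algebraMap ℚ_[p] ℂ_[p] (m i j (h⁻¹ * g))) =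
        D j l h * m i j (h⁻¹ * g) := by
      intro j h
      rw [mul_comm, ← Algebra.smul_def, map_smul, smul_eq_mul, mul_comm]
    simp only [h2] at h1
    rw [h1]
    split_ifs
    · exact hr1 _
    · exact map_zero r
  -- denominators
  have hb : ∃ b : ℕ, ∀ j l h, ‖(p : ℚ_[p]) ^ b * D j l h‖ ≤ 1 := by
    have h1 : ∀ q : ℚ_[p], ∃ b : ℕ, ‖q‖ ≤ (p : ℝ) ^ b := by
      intro q
      have hp1 : (1 : ℝ) < p := by exact_mod_cast hp.out.one_lt
      obtain ⟨b, hb⟩ := pow_unbounded_of_one_lt ‖q‖ hp1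
      exact ⟨b, hb.le⟩
    choose bb hbb using fun x : β × β × G => h1 (D x.1 x.2.1 x.2.2)
    refine ⟨Finset.univ.sup bb, fun j l h => ?_⟩
    have hp1 : (1 : ℝ) ≤ p := by exact_mod_cast hp.out.one_lt.le
    have hp0 : (0 : ℝ) < p := by linarith
    rw [norm_mul, norm_pow, Padic.norm_p, inv_pow]
    rw [inv_mul_le_iff₀ (by positivity), mul_one]
    refine (hbb (j, l, h)).trans ?_
    exact pow_le_pow_right₀ hp1 (Finset.le_sup (f := bb) (Finset.mem_univ _))
  obtain ⟨b, hb⟩ := hb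
  refine ⟨b, fun y => ?_⟩
  set Dz : β → β → G → ℤ_[p] := fun j l h => ⟨(p : ℚ_[p]) ^ b * D j l h, hb j l h⟩ with hDz
  refine ⟨fun j g => ∑ l, ∑ h, Dz j l h * y l (h⁻¹ * g), fun i g => ?_⟩
  have hcast : ∀ j h, ((∑ l, ∑ s, Dz j l s * y l (s⁻¹ * h) : ℤ_[p]) : ℚ_[p]) =
      ∑ l, ∑ s, (p : ℚ_[p]) ^ b * D j l s * ((y l (s⁻¹ * h) : ℤ_[p]) : ℚ_[p]) := by
    intro j h
    have h1 : ((∑ l, ∑ s, Dz j l s * y l (s⁻¹ * h) : ℤ_[p]) : ℚ_[p]) =
      PadicInt.Coe.ringHom (∑ l, ∑ s, Dz j l s * y l (s⁻¹ * h)) := rfl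
    rw [h1]
    simp only [map_sum, map_mul]
    rfl
  simp only [hcast]
  -- both sides
  have hL : (p : ℚ_[p]) ^ b * ∑ h, ((e h : ℤ_[p]) : ℚ_[p]) * ((y i (h⁻¹ * g) : ℤ_[p]) : ℚ_[p]) =
      (p : ℚ_[p]) ^ b * ∑ l, ∑ j, ∑ s, D j l s *
        ∑ h, m i j (s⁻¹ * h) * ((y l (h⁻¹ * g) : ℤ_[p]) : ℚ_[p]) := by
    congr 1
    have h1 : ∑ h, ((e h : ℤ_[p]) : ℚ_[p]) * ((y i (h⁻¹ * g) : ℤ_[p]) : ℚ_[p]) =
        ∑ l, ∑ h, (if i = l then ((e h : ℤ_[p]) : ℚ_[p]) else 0) *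
          ((y l (h⁻¹ * g) : ℤ_[p]) : ℚ_[p]) := by
      rw [Finset.sum_eq_single i]
      · simp
      · intro l _ hl
        refine Finset.sum_eq_zero fun h _ => ?_
        rw [if_neg (Ne.symm hl), zero_mul]
      · intro h
        exact absurd (Finset.mem_univ i) h
    rw [h1]
    refine Finset.sum_congr rfl fun l _ => ?_
    simp only [← heq2, Finset.sum_mul, Finset.mul_sum]
    rw [Finset.sum_comm]
    refine Finset.sum_congr rfl fun j _ => ?_
    rw [Finset.sum_comm]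
    refine Finset.sum_congr rfl fun s _ => Finset.sum_congr rfl fun h _ => ?_
    ring
  rw [hL]
  have hR : ∑ j, ∑ h, (∑ l, ∑ s, (p : ℚ_[p]) ^ b * D j l s *
        ((y l (s⁻¹ * h) : ℤ_[p]) : ℚ_[p])) * m i j (h⁻¹ * g) =
      (p : ℚ_[p]) ^ b * ∑ l, ∑ j, ∑ s, D j l s *
        ∑ h, ((y l (s⁻¹ * h) : ℤ_[p]) : ℚ_[p]) * m i j (h⁻¹ * g) := by
    rw [Finset.sum_comm (s := (Finset.univ : Finset β)) (t := (Finset.univ : Finset β)),
      Finset.mul_sum]
    refine Finset.sum_congr rfl fun j _ => ?_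
    simp only [Finset.sum_mul, Finset.mul_sum]
    rw [Finset.sum_comm]
    refine Finset.sum_congr rfl fun l _ => ?_
    rw [Finset.sum_comm]
    refine Finset.sum_congr rfl fun s _ => Finset.sum_congr rfl fun h _ => ?_
    ring
  rw [hR]
  congr 1
  refine Finset.sum_congr rfl fun l _ => Finset.sum_congr rfl fun j _ =>
    Finset.sum_congr rfl fun s _ => ?_
  rw [swap (m i j) (fun h => ((y l h : ℤ_[p]) : ℚ_[p])) s g]

theorem t : Pool.Agent.Helper16.SD.J_ALG := by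
  intro p _ G _ _ hcomm β _ _ m e hyp
  let _ : CommGroup G := { (inferInstance : Group G) with mul_comm := hcomm }
  exact main p G β m e hyp

end Pool.Agent.Helper66.SD.J_ALG
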