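import Pool.Agent.Helper45.SD.Goals

set_option autoImplicit false

/-!
# Question Q2 of MP_9415b6_co: packet EX (finite check)
-/

open Finset

namespace Pool.Agent.Helper66.SD

open Pool.Agent.Helper45.SD

/-- the Moebius function on the divisors of 16 and 24 -/
def mo (n : ℕ) : ℤ :=
  if n = 1 then 1 else if n = 2 then -1 else if n = 3 then -1 else if n = 6 then 1 else 0

/-- the divisors of 16 and 24 -/
def dv : Finset ℕ := {1, 2, 3, 4, 6, 8, 12, 16, 24}

theorem mo_eq (n : ℕ) (hn : n ∈ dv) : ArithmeticFunction.moebius n = mo n := by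
  have h2 : ArithmeticFunction.moebius 2 = -1 :=
    ArithmeticFunction.moebius_apply_prime Nat.prime_two
  have h3 : ArithmeticFunction.moebius 3 = -1 :=
    ArithmeticFunction.moebius_apply_prime Nat.prime_three
  have h6 : ArithmeticFunction.moebius 6 = 1 := by
    have h := ArithmeticFunction.isMultiplicative_moebius.map_mul_of_coprime
      (show Nat.Coprime 2 3 by norm_num)
    rw [h2, h3] at h
    norm_num at h
    exact h
  have hz : ∀ m : ℕ, 4 ∣ m → ArithmeticFunction.moebius m = 0 := by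
    intro m hm
    apply ArithmeticFunction.moebius_eq_zero_of_not_squarefree
    intro h
    have := h 2 (by norm_num; exact hm)
    rw [Nat.isUnit_iff] at this
    omega
  simp only [dv, Finset.mem_insert, Finset.mem_singleton] at hn
  rcases hn with rfl | rfl | rfl | rfl | rfl | rfl | rfl | rfl | rfl
  · simp [mo]
  · rw [h2]; rfl
  · rw [h3]; rfl
  · rw [hz 4 (by norm_num)]; rfl
  · rw [h6]; rfl
  · rw [hz 8 (by norm_num)]; rfl
  · rw [hz 12 (by norm_num)]; rfl
  · rw [hz 16 (by norm_num)]; rfl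
  · rw [hz 24 (by norm_num)]; rfl

/-- computable Ramanujan sum -/
def rc (g s : ℕ) : ℤ := ∑ d ∈ s.divisors, if d ∣ g then mo (s / d) * (d : ℤ) else 0

theorem dv_div : ∀ s ∈ dv, ∀ d ∈ s.divisors, s / d ∈ dv := by decide +kernel

theorem rg_eq (g s : ℕ) (hs : s ∈ dv) : rg g s = rc g s := by
  unfold rg rc
  refine Finset.sum_congr rfl (fun d hd => ?_)
  rw [mo_eq _ (dv_div s hs d hd)]

theorem ex_aux (n k : ℕ) (hn : ∀ s ∈ n.divisors, s ∈ dv) (hn' : n ∈ dv) (h2 : 2 ∣ n)
    (h : ∀ g ∈ n.divisors, (Nat.totient n : ℤ) * ∑ s ∈ n.divisors, rc g s * Bs n k s 2 ≠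
      (Nat.totient 2 : ℤ) * (rc g n * (Ph n k : ℤ))) (g : ℕ) (hg : g ∣ n) : ¬ AV n k g := by
  intro hA
  have hn0 : n ≠ 0 := by
    rintro rfl
    exact absurd hn' (by decide)
  refine h g (Nat.mem_divisors.mpr ⟨hg, hn0⟩) ?_
  have h1 := hA 2 h2 (by norm_num)
  rw [rg_eq g n hn'] at h1
  rw [← h1]
  congr 1
  refine Finset.sum_congr rfl (fun s hs => ?_)
  rw [rg_eq g s (hn s hs)]

theorem ex : G_EX := by
  intro M k g hm hg
  simp only [Finset.mem_insert, Finset.mem_singleton, Prod.mk.injEq] at hm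
  rcases hm with ⟨rfl, rfl⟩ | ⟨rfl, rfl⟩ | ⟨rfl, rfl⟩ | ⟨rfl, rfl⟩ | ⟨rfl, rfl⟩ | ⟨rfl, rfl⟩
  · exact ex_aux 8 3 (by decide +kernel) (by decide) (by norm_num) (by decide +kernel) g hg
  · exact ex_aux 12 3 (by decide +kernel) (by decide) (by norm_num) (by decide +kernel) g hg
  · exact ex_aux 12 4 (by decide +kernel) (by decide) (by norm_num) (by decide +kernel) g hg
  · exact ex_aux 12 5 (by decide +kernel) (by decide) (by norm_num) (by decide +kernel) g hg
  · exact ex_aux 16 4 (by decide +kernel) (by decide) (by norm_num) (by decide +kernel) g hg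
  · exact ex_aux 24 4 (by decide +kernel) (by decide) (by norm_num) (by decide +kernel) g hg

end Pool.Agent.Helper66.SD
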