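import Pool.Agent.Helper45.SD.Goals

set_option autoImplicit false

/-!
# Question Q2 of MP_9415b6_co: packet SPL
-/

open Finset

namespace Pool.Agent.Helper66.SD

open Pool.Agent.Helper45.SD

theorem cond_iff {p j i : ℕ} (hp : p.Prime) (hj : 0 < j) :
    p * j / Nat.gcd (p * j) i = p ↔ ∃ m, i = j * m ∧ ¬ p ∣ m := by
  have hpj : 0 < p * j := Nat.mul_pos hp.pos hj
  constructor
  · intro h
    have h1 : p * j = Nat.gcd (p * j) i * p := by
      have := Nat.div_mul_cancel (Nat.gcd_dvd_left (p * j) i)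
      rw [h] at this
      rw [mul_comm (Nat.gcd (p * j) i) p]
      exact this.symm
    have h2 : Nat.gcd (p * j) i = j := by
      have h3 : p * j = p * Nat.gcd (p * j) i := by
        rw [mul_comm p (Nat.gcd (p * j) i)]; exact h1
      exact (Nat.eq_of_mul_eq_mul_left hp.pos h3).symm
    have h3 : j ∣ i := h2 ▸ Nat.gcd_dvd_right (p * j) i
    obtain ⟨m, rfl⟩ := h3
    refine ⟨m, rfl, fun h4 => ?_⟩
    rw [mul_comm p j, Nat.gcd_mul_left] at h2
    have h5 : Nat.gcd p m = p := Nat.gcd_eq_left h4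
    rw [h5] at h2
    have h6 : j * p = j * 1 := by rw [h2, mul_one]
    have := Nat.eq_of_mul_eq_mul_left hj h6
    exact hp.one_lt.ne' this
  · rintro ⟨m, rfl, hm⟩
    have h1 : Nat.gcd p m = 1 := (Nat.Prime.coprime_iff_not_dvd hp).mpr hm
    rw [mul_comm p j, Nat.gcd_mul_left, h1, mul_one]
    exact Nat.mul_div_cancel_left p hj

theorem key {p j M k : ℕ} (hp : p.Prime) (hj : 0 < j) :
    Bs (p * M) k (p * j) p = D p (M / j) (k / j) := by
  unfold Bs D
  rw [← Finset.sum_filter]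
  symm
  refine Finset.sum_nbij (fun m => j * m) ?_ ?_ ?_ ?_
  · intro m hm
    simp only [Finset.mem_filter, Finset.mem_Icc] at hm ⊢
    obtain ⟨⟨h1, h2⟩, h3⟩ := hm
    refine ⟨⟨Nat.mul_pos hj h1, ?_⟩, (cond_iff hp hj).mpr ⟨m, rfl, h3⟩⟩
    have := (Nat.le_div_iff_mul_le hj).mp h2
    rw [mul_comm]; exact this
  · intro a _ b _ h
    exact Nat.eq_of_mul_eq_mul_left hj h
  · intro i hi
    simp only [Finset.coe_filter, Finset.mem_Icc, Set.mem_ofPred_eq] at hi
    obtain ⟨⟨h1, h2⟩, h3⟩ := hi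
    obtain ⟨m, rfl, h4⟩ := (cond_iff hp hj).mp h3
    refine ⟨m, ?_, rfl⟩
    simp only [Finset.coe_filter, Finset.mem_Icc, Set.mem_ofPred_eq]
    refine ⟨⟨?_, ?_⟩, h4⟩
    · rcases Nat.eq_zero_or_pos m with h | h
      · subst h; simp at h1
      · exact h
    · rw [Nat.le_div_iff_mul_le hj, mul_comm]; exact h2
  · intro m _
    have e1 : p * M / (p * j) = M / j := Nat.mul_div_mul_left M j hp.pos
    have e2 : (k - j * m) / (p * j) = (k / j - m) / p := by
      rw [mul_comm p j, ← Nat.div_div_eq_div_mul, Nat.sub_mul_div]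
    rw [e1, e2]

theorem spl : G_SPL := by
  intro p M k g hp hM
  have hinj : Set.InjOn (fun j => p * j) (M.divisors : Set ℕ) := by
    intro a _ b _ h
    exact Nat.eq_of_mul_eq_mul_left hp.pos h
  have h1 : ∑ j ∈ M.divisors, rg g (p * j) * D p (M / j) (k / j) =
      ∑ s ∈ M.divisors.image (fun j => p * j), rg g s * Bs (p * M) k s p := by
    rw [Finset.sum_image hinj]
    refine Finset.sum_congr rfl (fun j hj => ?_)
    rw [key hp (Nat.pos_of_mem_divisors hj)]
  rw [h1]
  symm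
  refine Finset.sum_subset ?_ ?_
  · intro s hs
    simp only [Finset.mem_image, Nat.mem_divisors] at hs ⊢
    obtain ⟨j, ⟨h2, _⟩, rfl⟩ := hs
    exact ⟨Nat.mul_dvd_mul_left p h2, (Nat.mul_pos hp.pos hM).ne'⟩
  · intro s hs hns
    have hs0 : 0 < s := Nat.pos_of_mem_divisors hs
    have hsd : s ∣ p * M := Nat.dvd_of_mem_divisors hs
    have hps : ¬ p ∣ s := by
      rintro ⟨j, rfl⟩
      apply hns
      simp only [Finset.mem_image, Nat.mem_divisors]
      exact ⟨j, ⟨Nat.dvd_of_mul_dvd_mul_left hp.pos hsd, hM.ne'⟩, rfl⟩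
    have hB : Bs (p * M) k s p = 0 := by
      unfold Bs
      refine Finset.sum_eq_zero (fun i _ => ?_)
      rw [if_neg]
      intro h
      exact hps (h ▸ Nat.div_dvd_of_dvd (Nat.gcd_dvd_left s i))
    rw [hB, mul_zero]

end Pool.Agent.Helper66.SD
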