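import Pool.Agent.Helper71.SD.Goals

/-!
Packet DUAL: the complement symmetry of the ambient graphs.
-/

namespace Pool.Agent.Helper71.SD.DUAL

open Pool.Agent.Helper71.AHtpy SimpleGraph

/-- the complement on the codes -/
def dC : C0 → C0
  | .mid S => .mid Sᶜ
  | .lo c => .hi c
  | .hi c => .lo c

theorem dC_dC (y : C0) : dC (dC y) = y := by
  cases y <;> simp [dC]

theorem dC_inj : Function.Injective dC := fun y y' h => by
  rw [← dC_dC y, h, dC_dC]

theorem xc_compl (h1 : S_XC1) (S : Finset E) : xc Sᶜ = dC (xc S) := by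
  obtain ⟨hc, -⟩ := h1
  unfold xc
  rw [compl_compl]
  by_cases h : ∀ a, cnt a S ≤ 5
  · have h' : ¬ ∀ a, cnt a Sᶜ ≤ 5 := by
      intro h'
      have e1 := h 0
      have e2 := h' 0
      have e3 := (hc 0 S).2
      omega
    rw [if_neg h', if_pos h, if_pos h]
    rfl
  · by_cases h' : ∀ a, cnt a Sᶜ ≤ 5
    · rw [if_pos h', if_neg h, if_pos h']
      rfl
    · rw [if_neg h', if_neg h, if_neg h, if_neg h']
      rfl

theorem NP_compl (h2 : S_XC2) {S : Finset E} (h : NP S) : NP Sᶜ := by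
  obtain ⟨hn, -⟩ := h2
  rw [hn] at h ⊢
  rw [compl_compl]
  exact ⟨h.2, h.1⟩

theorem adj_compl (h1 : S_XC1) {S T : Finset E} (h : (cube E).Adj S T) :
    (cube E).Adj Sᶜ Tᶜ := by
  obtain ⟨-, -, -, -, -, ht, -⟩ := h1
  obtain ⟨a, rfl⟩ := h
  exact ⟨a, ht a S⟩

theorem X0_dC (h1 : S_XC1) (h2 : S_XC2) {y y' : C0} (h : X0.Adj y y') :
    X0.Adj (dC y) (dC y') := by
  obtain ⟨hne, S, T, hST, hS, hT, rfl, rfl⟩ := h
  exact ⟨fun e => hne (dC_inj e), Sᶜ, Tᶜ, adj_compl h1 hST, NP_compl h2 hS, NP_compl h2 hT,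
    xc_compl h1 S, xc_compl h1 T⟩

theorem core_compl {S : Finset E} (h : Core S) : Core Sᶜ := by
  unfold Core at h ⊢
  rw [Finset.card_compl, Fintype.card_fin]
  omega

theorem ft_compl {o : Option (Finset E)} {S : Finset E} (h : o.map (fun T => Tᶜ) = some S) :
    o = some Sᶜ := by
  cases o with
  | none => simp at h
  | some T =>
    simp only [Option.map_some, Option.some.injEq] at h
    rw [← h, compl_compl]

theorem dual : S_XC1 → S_XC2 → S_DUAL := by
  intro h1 h2 V G A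
  have hx : ∀ S, A.b (dC (xc S)) = A.b (xc Sᶜ) := fun S => by rw [xc_compl h1]
  refine ⟨{
    b := fun y => A.b (dC y)
    b_inj := fun y y' h => dC_inj (A.b_inj h)
    b_adj := fun y y' h => A.b_adj _ _ (X0_dC h1 h2 h)
    ft := fun v => (A.ft v).map (fun T => Tᶜ)
    ft_b := fun y => by simp only [A.ft_b, Option.map_none]
    nbr := ?_
    ft_nbr := ?_
    no_lift := ?_
    eta := A.eta
    eta_b := fun y => A.eta_b _
    eta_lip := A.eta_lip
    F := A.F'
    F_b := ?_
    F_lip := A.F'_lip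
    F_top := A.F'_top
    F' := A.F
    F'_b := ?_
    F'_lip := A.F_lip
    F'_top := A.F_top
    att := ?_ }, fun S => rfl, fun S => hx S, rfl, rfl, rfl⟩
  · intro S hS v hv
    have hS' : xc Sᶜ = .mid Sᶜ := by rw [xc_compl h1, hS]; rfl
    rcases A.nbr Sᶜ hS' v hv with ⟨T, hT, rfl⟩ | h
    · left
      refine ⟨Tᶜ, ?_, ?_⟩
      · have := adj_compl h1 hT
        rwa [compl_compl] at this
      · show A.b (xc T) = A.b (dC (xc Tᶜ))
        rw [hx, compl_compl]
    · right
      show (A.ft v).map (fun T => Tᶜ) = some S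
      rw [h]
      simp
  · intro v S y h hv
    have h3 := A.ft_nbr v Sᶜ (dC y) (ft_compl h) hv
    have h4 := congrArg dC h3
    rw [dC_dC] at h4
    rw [h4]
    show C0.mid Sᶜᶜ = _
    rw [compl_compl]
  · rintro ⟨φ, h3, h4⟩
    refine A.no_lift ⟨fun S => φ Sᶜ, fun S hS => ?_, fun S T hS hT hST => ?_⟩
    · have := ft_compl (h3 Sᶜ (core_compl hS))
      rwa [compl_compl] at this
    · exact h4 _ _ (core_compl hS) (core_compl hT) (adj_compl h1 hST)
  · intro S hS a
    show A.F' (A.b (dC (xc S))) a = _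
    rw [hx, A.F'_b _ (NP_compl h2 hS), compl_compl]
  · intro S hS a
    show A.F (A.b (dC (xc S))) a = _
    rw [hx, A.F_b _ (NP_compl h2 hS)]
  · intro H _ A' g hg hfree
    have hfree' : Free A.b A' g := by
      rintro ⟨q, h3, h4⟩
      refine hfree ⟨fun S => q Sᶜ, fun S hS => ?_, fun S T hS hT hST => ?_⟩
      · exact h3 _ (core_compl hS)
      · exact h4 _ _ (core_compl hS) (core_compl hT) (adj_compl h1 hST)
    obtain ⟨L, Φ, c, e1, e2, e3, e4, e5⟩ := A.att H A' g hg hfree'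
    exact ⟨L, Φ, c, e1, e2, e3, e4, fun l hl i y => e5 l hl i (dC y)⟩

end Pool.Agent.Helper71.SD.DUAL
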